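import Pool.Agent.H37.CNZ.Stmts

/-!
# Row TRS of the board `cnz`: an element of trace `1`, regular at the finite places
-/

set_option autoImplicit false

namespace Pool.CND

open Polynomial IntermediateField
open scoped IntermediateField.algebraAdjoinAdjoin

section trs

variable {k L : Type} [Field k] [Field L] [Algebra k L]

/-- the place `z ↦ P.ord (σ z)` -/
def trs_conj (P : Place k L) (σ : L ≃ₐ[k] L) : Place k L where
  ord := fun z => P.ord (σ z)
  ord_mul := fun x y hx hy => by
    rw [map_mul]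
    exact P.ord_mul _ _ (fun h => hx (by simpa using h)) (fun h => hy (by simpa using h))
  ord_add := fun x y hx hy hxy => by
    rw [map_add]
    exact P.ord_add _ _ (fun h => hx (by simpa using h)) (fun h => hy (by simpa using h))
      (fun h => hxy (σ.injective (by rw [map_add, h, map_zero])))
  ord_surj := by
    obtain ⟨x, hx, h1⟩ := P.ord_surj
    exact ⟨σ.symm x, fun h => hx (by simpa using h), by simpa using h1⟩
  ord_const := fun c hc => by
    rw [AlgEquiv.commutes]
    exact P.ord_const c hc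
  residue := fun x hx h0 => by
    obtain ⟨c, hc⟩ := P.residue (σ x) (fun h => hx (by simpa using h)) h0
    refine ⟨c, ?_⟩
    rcases hc with hc | hc
    · left
      apply σ.injective
      rw [hc, AlgEquiv.commutes]
    · right
      rw [map_sub, AlgEquiv.commutes]
      exact hc

/-- the valuation ring of a place -/
def trs_sub (P : Place k L) : ValuationSubring L where
  carrier := {x | P.Ge x 0}
  mul_mem' := fun {a b} ha hb => by
    have h := P.ge_mul ha hb
    simpa using h
  one_mem' := Or.inr (by rw [P.ord_one])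
  add_mem' := fun ha hb => P.ge_add ha hb
  zero_mem' := P.ge_zero 0
  neg_mem' := fun ha => P.ge_neg ha
  mem_or_inv_mem' := fun x => by
    by_cases hx : x = 0
    · left
      exact Or.inl hx
    by_cases h : 0 ≤ P.ord x
    · left
      exact Or.inr h
    · right
      exact Or.inr (by rw [P.ord_inv hx]; omega)

theorem trs_mem_sub (P : Place k L) (x : L) : x ∈ trs_sub P ↔ P.Ge x 0 := Iff.rfl

theorem trs_poly (P : Place k L) (t : L) (ht : P.Ge t 0) (p : k[X]) : P.Ge (aeval t p) 0 := by
  induction p using Polynomial.induction_on' with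
  | add p q hp hq =>
    rw [map_add]
    exact P.ge_add hp hq
  | monomial n a =>
    rw [aeval_monomial]
    have h1 : t ^ n ∈ trs_sub P := pow_mem ((trs_mem_sub P t).2 ht) n
    have h2 : algebraMap k L a ∈ trs_sub P := P.ge_const a
    exact mul_mem h2 h1

theorem trs_adj (P : Place k L) (t : L) (ht : P.Ge t 0) (a : L) (ha : a ∈ Algebra.adjoin k {t}) :
    P.Ge a 0 := by
  rw [Algebra.adjoin_singleton_eq_range_aeval] at ha
  obtain ⟨p, hp⟩ := ha
  rw [← hp]
  exact trs_poly P t ht p

theorem trs_int (P : Place k L) (t : L) (ht : P.Ge t 0) (y : L)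
    (hy : IsIntegral (Algebra.adjoin k {t}) y) : P.Ge y 0 := by
  obtain ⟨p, hp, hp0⟩ := hy
  let i : Algebra.adjoin k {t} →+* trs_sub P :=
    { toFun := fun a => ⟨a, trs_adj P t ht a a.2⟩
      map_one' := rfl
      map_mul' := fun _ _ => rfl
      map_zero' := rfl
      map_add' := fun _ _ => rfl }
  have h1 : IsIntegral (trs_sub P) y := by
    refine ⟨p.map i, hp.map i, ?_⟩
    rw [eval₂_map]
    exact hp0
  obtain ⟨z, hz⟩ := IsIntegrallyClosed.isIntegral_iff.1 h1
  rw [← hz]
  exact z.2

theorem trs_ge (P Q : Place k L) (h : ∃ x : L, x ≠ 0 ∧ P.ord x ≠ Q.ord x) :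
    ∃ a : L, a ≠ 0 ∧ 0 ≤ P.ord a ∧ Q.ord a < 0 := by
  by_contra hcon
  have h1 : ∀ a : L, a ≠ 0 → 0 ≤ P.ord a → 0 ≤ Q.ord a := by
    intro a ha hp
    by_contra hq
    exact hcon ⟨a, ha, hp, by omega⟩
  have h2 : ∀ a : L, a ≠ 0 → P.ord a = 0 → Q.ord a = 0 := by
    intro a ha hp
    have h3 := h1 a ha (by omega)
    have h4 := h1 a⁻¹ (inv_ne_zero ha) (by rw [P.ord_inv ha]; omega)
    rw [Q.ord_inv ha] at h4
    omega
  have h3 : ∀ a : L, a ≠ 0 → Q.ord a = P.ord a * Q.ord P.pi := by
    intro a ha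
    have hz : P.pi ^ (P.ord a) ≠ 0 := zpow_ne_zero _ P.pi_ne
    have h4 := h2 (a / P.pi ^ (P.ord a)) (div_ne_zero ha hz) (by
      rw [P.ord_div ha hz, P.ord_zpow P.pi_ne, P.ord_pi]
      ring)
    rw [Q.ord_div ha hz, Q.ord_zpow P.pi_ne] at h4
    linarith
  have h4 : 0 ≤ Q.ord P.pi := h1 _ P.pi_ne (by rw [P.ord_pi]; norm_num)
  obtain ⟨y, hy, hy1⟩ := Q.ord_surj
  have h5 := h3 y hy
  rw [hy1] at h5
  have h6 : Q.ord P.pi = 1 := Int.eq_one_of_dvd_one h4 (Dvd.intro_left _ h5.symm)
  obtain ⟨x, hx, hne⟩ := h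
  apply hne
  rw [h3 x hx, h6, mul_one]

theorem trs_two (P Q : Place k L) (h : ∃ x : L, x ≠ 0 ∧ P.ord x ≠ Q.ord x) :
    ∃ a : L, a ≠ 0 ∧ P.ord a < 0 ∧ 0 < Q.ord a := by
  obtain ⟨a, ha, a1, a2⟩ := trs_ge P Q h
  obtain ⟨b, hb, b1, b2⟩ := trs_ge Q P (by
    obtain ⟨x, hx, hne⟩ := h
    exact ⟨x, hx, hne.symm⟩)
  refine ⟨b / a, div_ne_zero hb ha, ?_, ?_⟩
  · rw [P.ord_div hb ha]
    omega
  · rw [Q.ord_div hb ha]
    omega

/-- a cover is finite and separable over `k(t)` -/
theorem trs_fin_sep {G : Type} [Group G] [Finite G] (ρ : G →* (L ≃ₐ[k] L)) (t : L)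
    (h : IsCover ρ t) : Module.Finite (adjoin k {t}) L ∧ Algebra.IsSeparable (adjoin k {t}) L := by
  let H : Subgroup (L ≃ₐ[k] L) := ρ.range
  have hHf : Finite H := by
    have h2 : (Set.range ρ).Finite := Set.finite_range ρ
    have h3 : (H : Set (L ≃ₐ[k] L)) = Set.range ρ := MonoidHom.coe_range ρ
    have : (H : Set (L ≃ₐ[k] L)).Finite := by rw [h3]; exact h2
    exact this.to_subtype
  have hE : fixedField H = adjoin k {t} := by
    ext z
    rw [mem_fixedField_iff, ← h.fixed]
    constructor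
    · intro h4 g
      exact h4 (ρ g) ⟨g, rfl⟩
    · rintro h4 f ⟨g, rfl⟩
      exact h4 g
  have hfin : Module.Finite (fixedField H) L :=
    (inferInstance : FiniteDimensional (FixedPoints.subfield H L) L)
  have hsep : Algebra.IsSeparable (fixedField H) L :=
    (inferInstance : Algebra.IsSeparable (FixedPoints.subfield H L) L)
  rw [← hE]
  exact ⟨hfin, hsep⟩

/-- a prime of a Dedekind domain: of two elements one divides the other locally -/
theorem trs_loc (B : Type) [CommRing B] [IsDedekindDomain B] (m : Ideal B)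
    [m.IsPrime] (hm : m ≠ ⊥) (a b : B) : ∃ x s : B, s ∉ m ∧ (a * x = b * s ∨ b * x = a * s) := by
  have hB : IsDomain B := inferInstance
  have hL : IsDomain (Localization.AtPrime m) :=
    IsLocalization.isDomain_localization m.primeCompl_le_nonZeroDivisors
  have hd : IsDiscreteValuationRing (Localization.AtPrime m) :=
    (IsDedekindDomain.isDedekindDomainDvr B).is_dvr_at_nonzero_prime m hm inferInstance
  have key : ∀ a b : B, algebraMap B (Localization.AtPrime m) a ∣
      algebraMap B (Localization.AtPrime m) b → ∃ x s : B, s ∉ m ∧ a * x = b * s := by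
    intro a b hab
    obtain ⟨c, hc⟩ := hab
    obtain ⟨⟨x, s⟩, rfl⟩ := IsLocalization.mk'_surjective m.primeCompl c
    refine ⟨x, s, s.2, ?_⟩
    have hinj : Function.Injective (algebraMap B (Localization.AtPrime m)) :=
      IsLocalization.injective _ m.primeCompl_le_nonZeroDivisors
    apply hinj
    rw [map_mul, map_mul, hc, mul_assoc]
    congr 1
    exact (IsLocalization.mk'_spec _ x s).symm
  rcases ValuationRing.dvd_total (algebraMap B (Localization.AtPrime m) a)
    (algebraMap B (Localization.AtPrime m) b) with h | h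
  · obtain ⟨x, s, hs, h1⟩ := key a b h
    exact ⟨x, s, hs, Or.inl h1⟩
  · obtain ⟨x, s, hs, h1⟩ := key b a h
    exact ⟨x, s, hs, Or.inr h1⟩

theorem trs_adjoin_inv (t : L) (a : k) :
    adjoin k {(t - algebraMap k L a)⁻¹} = adjoin k {t} := by
  apply le_antisymm
  · rw [adjoin_simple_le_iff]
    exact inv_mem (sub_mem (mem_adjoin_simple_self k t) (_root_.algebraMap_mem _ a))
  · rw [adjoin_simple_le_iff]
    have h1 : t - algebraMap k L a ∈ adjoin k {(t - algebraMap k L a)⁻¹} := by
      have := inv_mem (mem_adjoin_simple_self k (t - algebraMap k L a)⁻¹)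
      rwa [inv_inv] at this
    have h2 := add_mem h1 (_root_.algebraMap_mem (adjoin k {(t - algebraMap k L a)⁻¹}) a)
    rwa [sub_add_cancel] at h2

end trs

theorem trs_thm (hEXI : S_EXI) : S_TRS := by
  intro k L G _ _ _ _ _ _ ρ t h
  classical
  cases nonempty_fintype G
  obtain ⟨hfin, hsep⟩ := trs_fin_sep ρ t h
  let A := Algebra.adjoin k {t}
  let tA : A := ⟨t, Algebra.self_mem_adjoin_singleton k t⟩
  have hsurj : Function.Surjective (aeval tA : k[X] →ₐ[k] A) := by
    intro a
    have h1 : (a : L) ∈ Algebra.adjoin k {t} := a.2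
    rw [Algebra.adjoin_singleton_eq_range_aeval] at h1
    obtain ⟨p, hp⟩ := h1
    refine ⟨p, Subtype.ext ?_⟩
    have h2 : ((aeval tA p : A) : L) = aeval t p := (aeval_algebraMap_apply L tA p).symm
    rw [h2]
    exact hp
  have hpir : IsPrincipalIdealRing A :=
    IsPrincipalIdealRing.of_surjective (aeval tA : k[X] →ₐ[k] A).toRingHom hsurj
  have hded : IsDedekindDomain A := inferInstance
  have hfr : IsFractionRing (integralClosure A L) L :=
    integralClosure.isFractionRing_of_finite_extension (adjoin k {t}) L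
  have hdB : IsDedekindDomain (integralClosure A L) :=
    integralClosure.isDedekindDomain A (adjoin k {t}) L
  let B := integralClosure A L
  have hft : ∀ g : G, ρ g t = t := (h.fixed t).2 (mem_adjoin_simple_self k t)
  -- the group acts on `B`
  have hA : ∀ a ∈ A, ∃ p : k[X], a = aeval t p := by
    intro a ha
    obtain ⟨p, hp⟩ := hsurj ⟨a, ha⟩
    refine ⟨p, ?_⟩
    have h2 : ((aeval tA p : A) : L) = aeval t p := (aeval_algebraMap_apply L tA p).symm
    rw [← h2, hp]
  have hfa : ∀ (g : G) (p : k[X]), ρ g (aeval t p) = aeval t p := by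
    intro g p
    have h1 := aeval_algHom_apply (ρ g : L →ₐ[k] L) t p
    have h2 : (ρ g : L →ₐ[k] L) t = t := hft g
    rw [h2] at h1
    exact h1.symm
  have hρB : ∀ (g : G) (y : L), y ∈ B → ρ g y ∈ B := by
    intro g y hy
    obtain ⟨p, hp, hp0⟩ := hy
    refine ⟨p, hp, ?_⟩
    have h1 : ((ρ g : L ≃ₐ[k] L) : L →+* L).comp (algebraMap A L) = algebraMap A L := by
      apply RingHom.ext
      intro a
      obtain ⟨q, hq⟩ := hA a a.2
      show ρ g (a : L) = (a : L)
      rw [hq, hfa]
    have h2 := hom_eval₂ p (algebraMap A L) ((ρ g : L ≃ₐ[k] L) : L →+* L) y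
    rw [h1, hp0, map_zero] at h2
    exact h2.symm
  have htr : ∀ y ∈ B, ∃ p : k[X], ∑ g : G, ρ g y = aeval t p := by
    intro y hy
    have h1 : (∑ g : G, ρ g y) ∈ adjoin k {t} := by
      rw [← h.fixed]
      intro g
      rw [map_sum]
      refine Fintype.sum_equiv (Equiv.mulLeft g) _ _ ?_
      intro x
      rw [Equiv.coe_mulLeft, map_mul]
      rfl
    have h2 : (∑ g : G, ρ g y) ∈ B := sum_mem (fun g _ => hρB g y hy)
    have h3 : IsIntegral A (⟨∑ g : G, ρ g y, h1⟩ : adjoin k {t}) := by
      rw [← isIntegral_algebraMap_iff (algebraMap (adjoin k {t}) L).injective]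
      exact h2
    obtain ⟨z, hz⟩ := IsIntegrallyClosed.isIntegral_iff.1 h3
    obtain ⟨p, hp⟩ := hA z z.2
    refine ⟨p, ?_⟩
    rw [← hp]
    exact (congrArg (algebraMap (adjoin k {t}) L) hz).symm
  have hAB : ∀ q : k[X], aeval t q ∈ B := by
    intro q
    have h2 : algebraMap A L (aeval tA q) ∈ B := Subalgebra.algebraMap_mem _ _
    have h3 : algebraMap A L (aeval tA q) = aeval t q := (aeval_algebraMap_apply L tA q).symm
    rwa [h3] at h2
  let I : Ideal k[X] :=
    { carrier := {p | ∃ y ∈ B, ∑ g : G, ρ g y = aeval t p}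
      add_mem' := by
        rintro p q ⟨y, hy, h1⟩ ⟨z, hz, h2⟩
        refine ⟨y + z, add_mem hy hz, ?_⟩
        rw [map_add, ← h1, ← h2, ← Finset.sum_add_distrib]
        exact Finset.sum_congr rfl (fun g _ => map_add _ _ _)
      zero_mem' := by
        refine ⟨0, zero_mem _, ?_⟩
        rw [map_zero]
        exact Finset.sum_eq_zero (fun g _ => map_zero _)
      smul_mem' := by
        rintro q p ⟨y, hy, h1⟩
        refine ⟨aeval t q * y, mul_mem ?_ hy, ?_⟩
        · exact hAB q
        · rw [smul_eq_mul, map_mul, ← h1, Finset.mul_sum]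
          refine Finset.sum_congr rfl (fun g _ => ?_)
          rw [map_mul, hfa] }
  have hreg0 : ∀ (P : Place k L), P.Ge t 0 → ∀ y ∈ B, P.Ge y 0 := fun P hP y hy =>
    trs_int P t hP y hy
  by_cases hI : I = ⊤
  · have h1 : (1 : k[X]) ∈ I := by rw [hI]; trivial
    obtain ⟨y, hy, h2⟩ := h1
    refine ⟨y, fun P hP => hreg0 P (Or.inr hP) y hy, ?_⟩
    rw [finsum_eq_sum_of_fintype, h2, map_one]
  exfalso
  obtain ⟨a, ha⟩ : ∃ a : k, ∀ p ∈ I, p.IsRoot a := by
    obtain ⟨q, hq⟩ := (inferInstance : IsPrincipalIdealRing k[X]).principal I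
    have hq1 : q.degree ≠ 0 := by
      intro hd
      apply hI
      rw [hq]
      have hu : IsUnit q := Polynomial.isUnit_iff_degree_eq_zero.2 hd
      exact Ideal.span_singleton_eq_top.2 hu
    obtain ⟨a, ha⟩ := IsAlgClosed.exists_root q hq1
    refine ⟨a, fun p hp => ?_⟩
    rw [hq] at hp
    obtain ⟨r, rfl⟩ := Ideal.mem_span_singleton.1 hp
    exact root_mul_right_of_isRoot r ha
  have htr0 : Transcendental k (t - algebraMap k L a) := by
    intro hal
    apply h.trans
    have := hal.add (isAlgebraic_algebraMap (R := k) (A := L) a)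
    rwa [sub_add_cancel] at this
  have h0 : t - algebraMap k L a ≠ 0 := fun h1 => htr0 (by rw [h1]; exact isAlgebraic_zero)
  have hE := trs_adjoin_inv t a
  obtain ⟨P, hP⟩ := hEXI k L (t - algebraMap k L a)⁻¹ (fun hal => htr0 (by simpa using hal.inv))
    (by rw [hE]; exact hfin) (by rw [hE]; exact hsep)
  have hPa : 0 < P.ord (t - algebraMap k L a) := by
    rw [P.ord_inv h0] at hP
    omega
  have hPt : P.Ge t 0 := by
    have h1 : P.Ge (t - algebraMap k L a) 0 := Or.inr hPa.le
    have h2 := P.ge_add h1 (P.ge_const a)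
    rwa [sub_add_cancel] at h2
  have ht0 : t ≠ 0 := by
    rintro rfl
    exact h.trans isAlgebraic_zero
  have hPt' : 0 ≤ P.ord t := hPt.resolve_left ht0
  have hreg : ∀ (g : G), ∀ y ∈ B, P.Ge (ρ g y) 0 := fun g y hy => hreg0 P hPt _ (hρB g y hy)
  let m : G → Ideal B := fun g =>
    { carrier := {y | P.Ge (ρ g (y : L)) 1}
      add_mem' := by
        intro x y hx hy
        show P.Ge (ρ g ((x : L) + (y : L))) 1
        rw [map_add]
        exact P.ge_add hx hy
      zero_mem' := by
        show P.Ge (ρ g (0 : L)) 1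
        rw [map_zero]
        exact P.ge_zero 1
      smul_mem' := by
        intro c x hx
        show P.Ge (ρ g ((c : L) * (x : L))) 1
        rw [map_mul]
        have h1 := P.ge_mul (hreg g c c.2) hx
        rwa [zero_add] at h1 }
  have hmm : ∀ (g : G) (y : B), y ∈ m g ↔ P.Ge (ρ g (y : L)) 1 := fun _ _ => Iff.rfl
  have hone : ∀ y : L, ρ 1 y = y := fun y => by rw [map_one]; rfl
  have hprime : (m 1).IsPrime := by
    constructor
    · intro h1
      have h2 : (1 : B) ∈ m 1 := by rw [h1]; trivial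
      rw [hmm, hone] at h2
      rcases h2 with h2 | h2
      · exact one_ne_zero h2
      · have h3 : P.ord ((1 : B) : L) = 0 := P.ord_one
        omega
    · intro x y hxy
      rw [hmm, hone] at hxy ⊢
      rw [hmm, hone]
      by_contra hcon
      rw [not_or, P.not_ge, P.not_ge] at hcon
      obtain ⟨⟨hx, hx1⟩, hy, hy1⟩ := hcon
      have h1 : ((x * y : B) : L) = (x : L) * (y : L) := rfl
      rw [h1] at hxy
      rcases hxy with h2 | h2
      · exact (mul_ne_zero hx hy) h2
      · rw [P.ord_mul _ _ hx hy] at h2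
        omega
  have hne : m 1 ≠ ⊥ := by
    intro h1
    have h2 : (⟨aeval t (X - C a), hAB _⟩ : B) ∈ m 1 := by
      rw [hmm, hone]
      show P.Ge (aeval t (X - C a)) 1
      rw [map_sub, aeval_X, aeval_C]
      exact Or.inr (by omega)
    rw [h1, Ideal.mem_bot] at h2
    have h3 : aeval t (X - C a) = (0 : L) := congrArg Subtype.val h2
    rw [map_sub, aeval_X, aeval_C] at h3
    exact h0 h3
  have hdist : ∀ g : G, g ≠ 1 → ¬ m g ≤ m 1 := by
    intro g hg hle
    have hex : ∃ x : L, x ≠ 0 ∧ P.ord x ≠ (trs_conj P (ρ g)).ord x := by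
      by_contra hcon
      push Not at hcon
      apply hg
      apply h.unram P hPt' g
      intro x hx
      exact (hcon x hx).symm
    obtain ⟨z, hz, z1, z2⟩ := trs_two P (trs_conj P (ρ g)) hex
    have z2' : 0 < P.ord (ρ g z) := z2
    obtain ⟨a', b', hb', hz'⟩ := IsFractionRing.div_surjective (A := B) z
    have hb0 : (b' : L) ≠ 0 := by
      intro h1
      have h2 : b' = 0 := Subtype.ext h1
      exact nonZeroDivisors.ne_zero hb' h2
    have hza : z * (b' : L) = (a' : L) := by
      rw [← hz']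
      exact div_mul_cancel₀ _ hb0
    obtain ⟨x, s, hs, hxs⟩ := trs_loc B (m 1) hne a' b'
    have hx0 : P.Ge (x : L) 0 := by
      have h1 := hreg 1 x x.2
      rwa [hone] at h1
    rcases hxs with hxs | hxs
    · apply hs
      apply hle
      rw [hmm]
      have h1 : (a' : L) * (x : L) = (b' : L) * (s : L) := congrArg Subtype.val hxs
      have h2 : (s : L) = z * (x : L) := by
        apply mul_left_cancel₀ hb0
        rw [← h1, ← hza]
        ring
      rw [h2, map_mul]
      have h3 : P.Ge (ρ g z) 1 := Or.inr (by omega)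
      have h4 := P.ge_mul h3 (hreg g x x.2)
      rwa [add_zero] at h4
    · apply hs
      rw [hmm, hone]
      have h1 : (b' : L) * (x : L) = (a' : L) * (s : L) := congrArg Subtype.val hxs
      have h2 : (x : L) = z * (s : L) := by
        apply mul_left_cancel₀ hb0
        rw [h1, ← hza]
        ring
      have h3 : (s : L) = z⁻¹ * (x : L) := by
        rw [h2, inv_mul_cancel_left₀ hz]
      rw [h3]
      have h4 : P.Ge z⁻¹ 1 := Or.inr (by rw [P.ord_inv hz]; omega)
      have h5 := P.ge_mul h4 hx0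
      rwa [add_zero] at h5
  have hinf : ¬ ((Finset.univ.erase (1 : G)).inf m ≤ m 1) := by
    intro h1
    obtain ⟨g, hg, h2⟩ := (hprime.inf_le').1 h1
    exact hdist g (Finset.ne_of_mem_erase hg) h2
  obtain ⟨y, hy1, hy2⟩ := SetLike.not_le_iff_exists.1 hinf
  obtain ⟨p, hp⟩ := htr y y.2
  have hpI : p ∈ I := ⟨y, y.2, hp⟩
  obtain ⟨q, hq⟩ := dvd_iff_isRoot.2 (ha p hpI)
  have hge : P.Ge (∑ g : G, ρ g (y : L)) 1 := by
    rw [hp, hq, map_mul, map_sub, aeval_X, aeval_C]
    have h1 : P.Ge (t - algebraMap k L a) 1 := Or.inr (by omega)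
    have h2 := P.ge_mul h1 (trs_poly P t hPt q)
    rwa [add_zero] at h2
  apply hy2
  rw [hmm, hone]
  have hsplit : (y : L) = (∑ g : G, ρ g (y : L)) -
      ∑ g ∈ Finset.univ.erase (1 : G), ρ g (y : L) := by
    rw [← Finset.add_sum_erase Finset.univ (fun g => ρ g (y : L)) (Finset.mem_univ (1 : G))]
    rw [hone]
    ring
  rw [hsplit]
  refine P.ge_sub hge (P.ge_sum _ _ _ ?_)
  intro g hg
  have h3 : (Finset.univ.erase (1 : G)).inf m ≤ m g := Finset.inf_le hg
  exact h3 hy1

end Pool.CND
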